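import Mathlib
import Pool.Agent.H32.VC

namespace Pool.Agent.Results.MP_97b8d2_co.Unbounded

open Pool.Agent.H32.VC

/-- `H` is an induced minor of `G` (branch-set form): disjoint connected branch sets, two of them
joined by an edge of `G` exactly when the corresponding vertices of `H` are adjacent. -/
def IsInducedMinor {W V : Type} (H : SimpleGraph W) (G : SimpleGraph V) : Prop :=
  ∃ X : W → Set V, (∀ h, (G.induce (X h)).Connected) ∧
    ∀ h h', h ≠ h' → Disjoint (X h) (X h') ∧ (H.Adj h h' ↔ ∃ x ∈ X h, ∃ y ∈ X h', G.Adj x y)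

/-- `G` is an intersection graph of spheres of positive radius in `ℝ^d`. -/
def IsSphereGraph {V : Type} (d : ℕ) (G : SimpleGraph V) : Prop :=
  ∃ (c : V → EuclideanSpace ℝ (Fin d)) (r : V → ℝ), (∀ v, 0 < r v) ∧
    ∀ u v, u ≠ v → (G.Adj u v ↔ (Metric.sphere (c u) (r u) ∩ Metric.sphere (c v) (r v)).Nonempty)

/-- `G` is an intersection graph of chords of the unit circle. -/
def IsCircleGraph {V : Type} (G : SimpleGraph V) : Prop :=
  ∃ a b : V → ℂ, (∀ v, ‖a v‖ = 1 ∧ ‖b v‖ = 1 ∧ a v ≠ b v) ∧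
    ∀ u v, u ≠ v → (G.Adj u v ↔ (segment ℝ (a u) (b u) ∩ segment ℝ (a v) (b v)).Nonempty)

def G0 (n : ℕ) : SimpleGraph (Fin n ⊕ Finset (Fin n)) where
  Adj u v := u ≠ v ∧ ∀ a X, (u = Sum.inl a ∧ v = Sum.inr X ∨ v = Sum.inl a ∧ u = Sum.inr X) → a ∈ X
  symm := ⟨fun _ _ h => ⟨h.1.symm, fun a X e => h.2 a X e.symm⟩⟩
  loopless := ⟨fun _ h => h.1 rfl⟩

theorem G0_adj {n : ℕ} (a : Fin n) (X : Finset (Fin n)) :
    (G0 n).Adj (Sum.inl a) (Sum.inr X) ↔ a ∈ X := by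
  constructor
  · intro h
    exact h.2 a X (Or.inl ⟨rfl, rfl⟩)
  · intro h
    refine ⟨by simp, fun b Y e => ?_⟩
    simp only [Sum.inl.injEq, Sum.inr.injEq, reduceCtorEq, false_and, or_false] at e
    rw [← e.1, ← e.2]
    exact h

theorem G0_same {n : ℕ} (u v : Fin n ⊕ Finset (Fin n)) (h : u ≠ v) (hs : u.isLeft = v.isLeft) :
    (G0 n).Adj u v := by
  refine ⟨h, fun a X e => ?_⟩
  rcases e with ⟨rfl, rfl⟩ | ⟨rfl, rfl⟩ <;> simp at hs

theorem result {W : Type} [Fintype W] (H : SimpleGraph W) (x y z : W) (hxy : x ≠ y) (hxz : x ≠ z)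
    (hyz : y ≠ z) (nxy : ¬ H.Adj x y) (nxz : ¬ H.Adj x z) (nyz : ¬ H.Adj y z) (d : ℕ) :
    ∃ (V : Type) (_ : Fintype V) (G : SimpleGraph V), ¬ IsInducedMinor H G ∧ ¬ IsCircleGraph G ∧
      ∀ e, 2 ≤ e → e ≤ d → ¬ IsSphereGraph e G := by
  classical
  obtain ⟨n, hn⟩ := two_half (d + 9)
  refine ⟨Fin n ⊕ Finset (Fin n), inferInstance, G0 n, ?_, ?_, ?_⟩
  · rintro ⟨X, h1, h2⟩
    have : ∀ h, ∃ v, v ∈ X h := fun h => by
      obtain ⟨v⟩ := (h1 h).nonempty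
      exact ⟨v.1, v.2⟩
    choose f hf using this
    have key : ∀ p q, p ≠ q → ¬ H.Adj p q → (f p).isLeft ≠ (f q).isLeft := by
      intro p q hpq hn e
      refine hn ((h2 p q hpq).2.2 ⟨f p, hf p, f q, hf q, G0_same _ _ (fun e' => ?_) e⟩)
      exact Set.disjoint_left.1 (h2 p q hpq).1 (hf p) (e' ▸ hf q)
    have k1 := key x y hxy nxy
    have k2 := key x z hxz nxz
    have k3 := key y z hyz nyz
    revert k1 k2 k3
    cases (f x).isLeft <;> cases (f y).isLeft <;> cases (f z).isLeft <;> simp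
  · rintro ⟨a, b, h1, h2⟩
    let t : ℂ → Fin 3 → ℝ := fun p => ![p.re, p.im, 1]
    refine hn (Fin 3 × Fin 3) (by simp) (fun i k => t (a (Sum.inl i)) k.1 * t (b (Sum.inl i)) k.2)
      fun X => ?_
    let c := a (Sum.inr X)
    let e := b (Sum.inr X)
    let l : Fin 3 → ℝ := ![-(e.im - c.im), e.re - c.re, (e.im - c.im) * c.re - (e.re - c.re) * c.im]
    refine ⟨fun k => l k.1 * l k.2, fun k => l k.1 * l k.2, fun i => ?_⟩
    rw [and_self, ← G0_adj, h2 _ _ (by simp), chord _ _ _ _ (h1 _).1 (h1 _).2.1 (h1 _).1 (h1 _).2.1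
      (h1 _).2.2]
    have : ∑ k : Fin 3 × Fin 3, t (a (Sum.inl i)) k.1 * t (b (Sum.inl i)) k.2 * (l k.1 * l k.2) =
        ell c e (a (Sum.inl i)) * ell c e (b (Sum.inl i)) := by
      simp [Fintype.sum_prod_type, Fin.sum_univ_three, t, l, ell]
      ring
    rw [this]
  · rintro e he2 hed ⟨c, r, h1, h2⟩
    have hE : 1 < Module.rank ℝ (EuclideanSpace ℝ (Fin e)) := by
      rw [← Module.finrank_eq_rank, finrank_euclideanSpace_fin]
      exact_mod_cast he2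
    refine hn (Fin e ⊕ Fin 3) (by simp; omega)
      (fun i => Sum.elim (fun k => c (Sum.inl i) k)
        ![r (Sum.inl i), ‖c (Sum.inl i)‖ ^ 2 - r (Sum.inl i) ^ 2, 1]) fun X => ?_
    let c' := c (Sum.inr X)
    let r' := r (Sum.inr X)
    refine ⟨Sum.elim (fun k => -2 * c' k) ![-2 * r', 1, ‖c'‖ ^ 2 - r' ^ 2],
      Sum.elim (fun k => 2 * c' k) ![-2 * r', -1, -(‖c'‖ ^ 2 - r' ^ 2)], fun i => ?_⟩
    rw [← G0_adj, h2 _ _ (by simp), sphere_inter hE _ _ _ _ (h1 _) (h1 _)]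
    have hin : ‖c (Sum.inl i) - c'‖ ^ 2 =
        ‖c (Sum.inl i)‖ ^ 2 - 2 * ∑ k, c (Sum.inl i) k * c' k + ‖c'‖ ^ 2 := by
      rw [norm_sub_sq_real, PiLp.inner_apply]
      simp [mul_comm]
    have s1 : ∑ k, c (Sum.inl i) k * (-2 * c' k) = -2 * ∑ k, c (Sum.inl i) k * c' k := by
      rw [Finset.mul_sum]; exact Finset.sum_congr rfl fun k _ => by ring
    have s2 : ∑ k, c (Sum.inl i) k * (2 * c' k) = 2 * ∑ k, c (Sum.inl i) k * c' k := by
      rw [Finset.mul_sum]; exact Finset.sum_congr rfl fun k _ => by ring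
    simp only [Fintype.sum_sum_type, Sum.elim_inl, Sum.elim_inr, Fin.sum_univ_three, s1, s2,
      Matrix.cons_val_zero, Matrix.cons_val_one, Matrix.cons_val]
    show (‖c (Sum.inl i) - c'‖ ^ 2 ≤ (r (Sum.inl i) + r') ^ 2 ∧
      (r (Sum.inl i) - r') ^ 2 ≤ ‖c (Sum.inl i) - c'‖ ^ 2) ↔ _
    rw [hin]
    constructor <;> rintro ⟨k1, k2⟩ <;> constructor <;> nlinarith

end Pool.Agent.Results.MP_97b8d2_co.Unbounded
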